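import Pool.Agent.H86R3.NucC
import Pool.Agent.H86R3.NucE
import Pool.Agent.H86R3.NucF
import Pool.Agent.H86R3.NucData

/-!
There are Banach spaces `X`, `Y` for which the nuclear operators attaining their nuclear norm are
not dense in the space of nuclear operators with respect to the nuclear norm.
-/

set_option autoImplicit false
open Filter Topology
open scoped ENNReal

namespace Pool.Agent.Results.MP_91e127_an.NotDense

open Pool.Agent.H86R3.Nuc Pool.Agent.Helper362.ApNoBap

lemma nn_neg {X Y : Type} [NormedAddCommGroup X] [NormedSpace ℝ X]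
    [NormedAddCommGroup Y] [NormedSpace ℝ Y] {T : X →L[ℝ] Y} (h : IsNuclear T) :
    nuclearNorm (-T) = nuclearNorm T := by
  have := nn_smul h (-1)
  rwa [neg_one_smul, abs_neg, abs_one, one_mul] at this

lemma nuclear_neg {X Y : Type} [NormedAddCommGroup X] [NormedSpace ℝ X]
    [NormedAddCommGroup Y] [NormedSpace ℝ Y] {T : X →L[ℝ] Y} (h : IsNuclear T) :
    IsNuclear (-T) := by
  have := nuclear_smul (-1) h
  rwa [neg_one_smul] at this

/-- There are real Banach spaces `X` and `Y`, where `Y` has the approximation property, and a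
nuclear operator `T : X → Y` of finite rank, such that every nuclear operator `S : X → Y` that
attains its nuclear norm has nuclear norm distance at least `1 / 16` from `T`. -/
theorem result : ∃ (X : Type) (_ : NormedAddCommGroup X) (_ : NormedSpace ℝ X)
    (_ : CompleteSpace X) (Y : Type) (_ : NormedAddCommGroup Y) (_ : NormedSpace ℝ Y)
    (_ : CompleteSpace Y) (T : X →L[ℝ] Y),
    (∀ K : Set Y, IsCompact K → ∀ ε : ℝ, 0 < ε → ∃ P : Y →L[ℝ] Y,
      FiniteDimensional ℝ (LinearMap.range (P : Y →ₗ[ℝ] Y)) ∧ ∀ x ∈ K, ‖P x - x‖ ≤ ε) ∧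
    IsNuclear T ∧ FiniteDimensional ℝ (LinearMap.range (T : X →ₗ[ℝ] Y)) ∧
    ∀ S : X →L[ℝ] Y, AttainsNuclearNorm S → 1 / 16 ≤ nuclearNorm (T - S) := by
  classical
  obtain ⟨D, hD⟩ := exists_data
  obtain ⟨M, hM1, hM2, hM3⟩ := hD 7
  have hcomp : CompleteSpace D.S := D.S_closed.completeSpace_coe
  let a : ℕ → (XX D →L[ℝ] ℝ) := fun g => dd (ev D) (ev_le D) (D.e.symm (7, 0, g))
  let b : ℕ → D.S := fun g => D.v 7 M g
  let T0 : XX D →L[ℝ] D.S := ∑ g ∈ Finset.range M, (a g).smulRight (b g)
  have hT0 : IsNuclear T0 := by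
    have : T0 ∈ NucSub (XX D) D.S :=
      Submodule.sum_mem _ (fun i _ => nuclear_rank_one (a i) (b i))
    exact this
  -- numerical facts
  have he := D.heps 7
  have he1 := D.heps1 7
  have ht := D.tail_nonneg M
  have n1 : D.eps 7 * ∑' g, D.r g ≤ 1 / 32 := by
    push_cast at hM3
    linarith
  have n2 : D.tail M / D.eps 7 ≤ 1 / 32 := by
    push_cast at hM2
    have : (7 + 1 : ℝ) / D.eps 7 * D.tail M = 8 * (D.tail M / D.eps 7) := by ring
    nlinarith
  have n3 : D.tail M ≤ 1 / 32 := by
    have : D.tail M ≤ D.tail M / D.eps 7 := by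
      rw [le_div_iff₀ he]
      nlinarith
    linarith
  -- the trace of T0
  have htr : ∑ g ∈ Finset.range M, a g (JX (ev D) (ev_le D) (b g)) =
      ∑ g ∈ Finset.range M, D.A g g := by
    refine Finset.sum_congr rfl (fun g hg => ?_)
    have hgM := Finset.mem_range.mp hg
    have h1 : D.phi 7 g (D.v 7 M g : D.S) = D.A g g := by
      rw [D.v_coe 7 M g hgM, Data.phi_J, if_pos rfl, Data.row_apply]
    rw [← h1]
    unfold Data.phi
    rw [hM1 g hgM, div_one]
    rfl
  have hlow := nn_lower D (JX (ev D) (ev_le D)) (Finset.range M) a b (norm_JX_le _ _)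
  rw [htr] at hlow
  have hdg := (abs_le.mp (D.abs_sum_diag M)).1
  have hlow' : 31 / 64 ≤ nuclearNorm T0 := by
    have h1 : ∑ g ∈ Finset.range M, D.A g g ≤ 2 * nuclearNorm T0 := hlow
    linarith
  refine ⟨XX D, inferInstance, inferInstance, inferInstance, D.S, inferInstance, inferInstance,
    hcomp, T0, fun K hK ε hε => D.AP K hK ε hε, hT0, ?_, ?_⟩
  · have h1 : LinearMap.range (T0 : XX D →ₗ[ℝ] D.S) ≤
        Submodule.span ℝ ((Finset.range M).image b : Set D.S) := by
      rintro _ ⟨x, rfl⟩
      have h2 : T0 x = ∑ g ∈ Finset.range M, a g x • b g := by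
        show (∑ g ∈ Finset.range M, (a g).smulRight (b g)) x = _
        rw [sum_apply]
        rfl
      show T0 x ∈ _
      rw [h2]
      refine Submodule.sum_mem _ (fun g hg => Submodule.smul_mem _ _ (Submodule.subset_span ?_))
      exact Finset.mem_coe.mpr (Finset.mem_image_of_mem b hg)
    exact Submodule.finiteDimensional_of_le h1
  · intro S hS
    by_contra hcon
    push Not at hcon
    have hSn : IsNuclear S := by
      obtain ⟨f, y, h, _⟩ := hS
      exact ⟨f, y, h⟩
    have hd : IsNuclear (T0 - S) := by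
      rw [sub_eq_add_neg]
      exact nuclear_add hT0 (nuclear_neg hSn)
    have h1 : nuclearNorm T0 ≤ nuclearNorm (T0 - S) + nuclearNorm S := by
      have := nn_add_le hd hSn
      rwa [sub_add_cancel] at this
    have hpos : 0 < nuclearNorm S := by linarith
    obtain ⟨B, hB, ⟨y, x', hy, hx', hyx⟩, hle⟩ := exists_B hS hpos (Finset.range M) a b
    have h2 : nuclearNorm (S - T0) = nuclearNorm (T0 - S) := by
      rw [← neg_sub, nn_neg hd]
    have h3 : nuclearNorm S ≤ ∑ i ∈ Finset.range M, B (b i) (a i) + nuclearNorm (S - T0) := hle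
    rw [h2] at h3
    obtain ⟨F, hF⟩ := kills D B hB y x' hy hx' hyx
    have hfin := fin_range D B hB F hF
    have hest := main_est D 7 M hM1 (Bt D B hB) (norm_Bt_le D B hB) hfin
      (fun h y => Phi_Bt D B hB 7 h y)
    have h4 : ∑ g ∈ Finset.range M, D.phi 7 g (Bt D B hB (D.v 7 M g)) =
        ∑ i ∈ Finset.range M, B (b i) (a i) := by
      refine Finset.sum_congr rfl (fun g hg => ?_)
      unfold Data.phi
      rw [hM1 g (Finset.mem_range.mp hg), div_one]
      rfl
    rw [h4] at hest
    have h5 := (abs_le.mp hest).2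
    linarith

end Pool.Agent.Results.MP_91e127_an.NotDense
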